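import Pool.Agent.Y995.TP.FastTop

/-!
# Fast times of the percolation interface: dimension `1 - Θ(θ ^ (7/3))`

Critical bond percolation on `δ ℤ²` in a rectangle `D = (-A, B) × (0, H)`, with the counterclockwise
boundary arc from `a = t + i H` to `b = 0` wired and the other one dual-wired. The exploration path
is parametrised by its number of steps: `Rect.curve` is the piecewise linear curve on `[0, 1]` run
at constant speed, and `Rect.time` is the number of steps times `δ ^ (7/4)`; `Rect.law` is the law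
of (curve, time). Weak limits exist along a subsequence of every sequence of meshes.

Let `p = (f, T)` be a sample of a weak limit. A time `u` is `θ`-fast if for arbitrarily small `h`
there is a time `v` with `T |v - u| ≤ h` and `dist (f v) (f u) ≥ θ h ^ (4/7) (log (1/h)) ^ (3/7)`.
(At typical times the displacement has only the order `h ^ (4/7) (log log (1/h)) ^ (3/7)`; the
uniform modulus of continuity is of the order `h ^ (4/7) (log (1/h)) ^ (3/7)`.) There are universal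
constants `c`, `C`, `θ₀` such that in every rectangle, for every weak limit, almost surely,
simultaneously for all `0 < θ ≤ θ₀` and all `s < t`, the `θ`-fast times in `[s, t]` have Hausdorff
dimension between `1 - C θ ^ (7/3)` and `1 - c θ ^ (7/3)`, and their images have Hausdorff dimension
between `7/4 (1 - C θ ^ (7/3))` and `7/4 (1 - c θ ^ (7/3))`.

This is the analogue of the Orey-Taylor theorem on the fast points of the Brownian motion for the
natural parametrization of the interface.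

Definitions: `Pool.Agent.H984R4.NP.Model` (`Rect`, `pos`, `clamp`, `pl`, `X`, `Rect.dm`,
`Rect.curve`, `Rect.time`, `Rect.law`), `Pool.Agent.H984R4.NP.Defs` (`Dm`, `Dm.edges`, `Dm.wir`,
`Dm.cfg`, `Dm.walk`, `Dm.len`) and `Pool.Agent.H984R3.Per.Defs` (states, `ae`, `mv`, `rt`, `nxt`,
`orb`). The lattice estimates of the displacements are those of project EV (helper41 with helpers
287, 490, 758, 858, 864, 941, 988; `Pool.Agent.Y41.EV`), the rest is in `Pool.Agent.Y995.TP`.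
-/

set_option autoImplicit false

namespace Pool.Agent.Results.MP_b3e76a_pr.FastTimes

open H984N MeasureTheory Filter Topology

/-- `u` is a `θ`-fast time of `p = (f, T)`: for arbitrarily small `h > 0` there is a time `v` within
natural time `h` of `u` (`T |v - u| ≤ h`) with
`dist (f v) (f u) ≥ θ h ^ (4/7) (log (1/h)) ^ (3/7)`. -/
def Fast (θ : ℝ) (p : X) (u : unitInterval) : Prop :=
  ∃ᶠ h : ℝ in 𝓝[>] 0, ∃ v : unitInterval, p.2 * |(v : ℝ) - u| ≤ h ∧
    θ * (h ^ (4/7 : ℝ) * Real.log (1 / h) ^ (3/7 : ℝ)) ≤ dist (p.1 v) (p.1 u)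

theorem result : ∃ c C θ₀ : ℝ, 0 < c ∧ 0 < C ∧ 0 < θ₀ ∧ C * θ₀ ^ (7/3 : ℝ) < 1 ∧ ∀ R : Rect,
    (∀ δ : ℕ → ℝ, (∀ i, 0 < δ i) → Tendsto δ atTop (𝓝 0) →
      ∃ φ : ℕ → ℕ, StrictMono φ ∧ ∃ μ : ProbabilityMeasure X,
        Tendsto (fun i => R.law (δ (φ i))) atTop (𝓝 μ)) ∧
    ∀ δ : ℕ → ℝ, (∀ i, 0 < δ i) → Tendsto δ atTop (𝓝 0) → ∀ μ : ProbabilityMeasure X,
      Tendsto (fun i => R.law (δ i)) atTop (𝓝 μ) →
      ∀ᵐ p ∂(μ : Measure X), 0 < p.2 ∧ ∀ θ : ℝ, 0 < θ → θ ≤ θ₀ → ∀ s t : unitInterval, s < t →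
        (ENNReal.ofReal (1 - C * θ ^ (7/3 : ℝ)) ≤ dimH {u | u ∈ Set.Icc s t ∧ Fast θ p u} ∧
          dimH {u | u ∈ Set.Icc s t ∧ Fast θ p u} ≤ ENNReal.ofReal (1 - c * θ ^ (7/3 : ℝ))) ∧
        (ENNReal.ofReal (7 / 4 * (1 - C * θ ^ (7/3 : ℝ))) ≤
            dimH (p.1 '' {u | u ∈ Set.Icc s t ∧ Fast θ p u}) ∧
          dimH (p.1 '' {u | u ∈ Set.Icc s t ∧ Fast θ p u}) ≤
            ENNReal.ofReal (7 / 4 * (1 - c * θ ^ (7/3 : ℝ)))) := by
  obtain ⟨c, C, θ0, hc, hC, hθ0, hCθ, h⟩ := Pool.Agent.Y995.TP.fast_top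
  refine ⟨c, C, θ0, hc, hC, hθ0, hCθ, fun R => ⟨(h R).1, fun δ hδ hlim μ hμ => ?_⟩⟩
  filter_upwards [(h R).2 δ hδ hlim μ hμ] with p hp
  refine ⟨hp.1, fun θ hθ hθ' s t hst => ?_⟩
  obtain ⟨h1, h2⟩ := hp.2.2 θ hθ hθ'
  have e1 : {u | u ∈ Set.Icc s t ∧ Fast θ p u} =
      Set.Icc s t ∩ Pool.Agent.Y995.TP.Ft θ p := rfl
  have h3 : dimH (Set.Icc s t ∩ Pool.Agent.Y995.TP.Ft θ p) ≤
      ENNReal.ofReal (1 - c * θ ^ (7/3 : ℝ)) :=
    (dimH_mono Set.inter_subset_right).trans h1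
  have h4 := h2 s t hst
  have e3 : (7 / 4 : ENNReal) = ENNReal.ofReal (7 / 4) := by
    rw [ENNReal.ofReal_div_of_pos (by norm_num)]
    norm_num
  rw [e1, hp.2.1, e3, ENNReal.ofReal_mul (by norm_num), ENNReal.ofReal_mul (by norm_num)]
  exact ⟨⟨h4, h3⟩, mul_le_mul_right h4 _, mul_le_mul_right h3 _⟩

end Pool.Agent.Results.MP_b3e76a_pr.FastTimes
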