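import Pool.Agent.Y993.LL.Cond

/-!
# The law of the length of an interface loop of critical bond percolation

Critical bond percolation on `ℤ²`, i.e. the FK model with `q = 1` at its self-dual point `p = 1/2`,
on the whole lattice. A state of an interface is a pair `σ = (v, corner)`: a vertex `v` (on the
right of the interface) and one of the four faces at `v` (on the left of the interface). The edge
examined at `σ` starts at `v` along this face; if it is open the interface follows it to its other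
end, if it is closed the interface turns around `v` to the next face (`nxt`, a bijection of the
states; the states are the medial edges with their orientation). `loop F σ` is the set of all the
states visited by the interface from `σ` when `F` is the set of the open edges; it separates the
cluster of `v` from the dual cluster of the face.

Definitions: `sqLattice`, `bondLaw`, `hlf` (`= 1/2`), `opn ω` (the set of the open edges) in
`Pool.Agent.H974R2.{Model,Infinite}`; `St`, `nxt` in `Pool.Agent.H984R3.Per.Defs`; `loop` in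
`Pool.Agent.Y993.LL.Loop`; `cst v n` (the states whose vertex is at sup distance at most `n` from
`v`) in `Pool.Agent.Y993.LL.Upper`; `sd` (the sup distance of two vertices) in
`Pool.Agent.Y993.LL.Final`.

The two-arm probabilities `n ^ (-1/4)` in annuli, the separation of arms and the perimeter lower
bound in blocks are those of the starting files (`Pool.Agent.H985R3`, `H984R3`, `H342R2`, `H12R2`).
-/

set_option autoImplicit false

namespace Pool.Agent.Results.MP_b3e76a_pr.LoopLaw

open MeasureTheory H974 H984P Pool.Agent.Y993.LL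

/-- **The law of the interface loop through a given state.** There are constants `c, C > 0` such
that:
(1) almost surely every interface is a closed loop, whose number of steps is the number of its
states;
(2) the loop through a given state has at least `ℓ` steps with probability of order `ℓ ^ (-1/7)`,
for all `ℓ ≥ 1`;
(3) it reaches the distance `n` of its starting state with probability of order `n ^ (-1/4)`;
(4) its mean number of states at distance at most `n` is of order `n ^ (3/2)`;
(5) for every `ε > 0` there is `Λ` such that, given that the loop through `σ` reaches the distance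
`n`, its length lies between `n ^ (7/4) / Λ` and `Λ n ^ (7/4)` with conditional probability at least
`1 - ε`, for all `σ` and all `n ≥ 1`. -/
theorem result : ∃ c C : ℝ, 0 < c ∧ 0 < C ∧
    (∀ᵐ ω ∂(bondLaw hlf), ∀ σ : St, 0 < Function.minimalPeriod (nxt (opn ω)) σ ∧
      Function.minimalPeriod (nxt (opn ω)) σ = (loop (opn ω) σ).ncard) ∧
    (∀ (σ : St) (ℓ : ℕ), 1 ≤ ℓ →
      c * (ℓ:ℝ) ^ (-(1/7:ℝ)) ≤ (bondLaw hlf).real {ω | ℓ ≤ (loop (opn ω) σ).ncard} ∧
      (bondLaw hlf).real {ω | ℓ ≤ (loop (opn ω) σ).ncard} ≤ C * (ℓ:ℝ) ^ (-(1/7:ℝ))) ∧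
    (∀ (σ : St) (n : ℕ), 1 ≤ n →
      c * (n:ℝ) ^ (-(1/4:ℝ)) ≤
        (bondLaw hlf).real {ω | ∃ τ ∈ loop (opn ω) σ, (n:ℤ) ≤ sd σ.1 τ.1} ∧
      (bondLaw hlf).real {ω | ∃ τ ∈ loop (opn ω) σ, (n:ℤ) ≤ sd σ.1 τ.1} ≤
        C * (n:ℝ) ^ (-(1/4:ℝ))) ∧
    (∀ (σ : St) (n : ℕ), 1 ≤ n →
      c * (n:ℝ) ^ (3/2:ℝ) ≤ ∑ τ ∈ cst σ.1 n, (bondLaw hlf).real {ω | τ ∈ loop (opn ω) σ} ∧
      ∑ τ ∈ cst σ.1 n, (bondLaw hlf).real {ω | τ ∈ loop (opn ω) σ} ≤ C * (n:ℝ) ^ (3/2:ℝ)) ∧
    (∀ ε : ℝ, 0 < ε → ∃ Λ : ℝ, 0 < Λ ∧ ∀ (σ : St) (n : ℕ), 1 ≤ n →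
      (bondLaw hlf).real {ω | (∃ τ ∈ loop (opn ω) σ, (n:ℤ) ≤ sd σ.1 τ.1) ∧
        ¬ ((n:ℝ) ^ (7/4:ℝ) / Λ ≤ (loop (opn ω) σ).ncard ∧
          ((loop (opn ω) σ).ncard : ℝ) ≤ Λ * (n:ℝ) ^ (7/4:ℝ))} ≤
      ε * (bondLaw hlf).real {ω | ∃ τ ∈ loop (opn ω) σ, (n:ℤ) ≤ sd σ.1 τ.1}) := by
  obtain ⟨c, C, hc, hC, h1, h2, h3, h4, h5, -⟩ := main
  exact ⟨c, C, hc, hC, h1, h2, h3, h4, h5⟩

end Pool.Agent.Results.MP_b3e76a_pr.LoopLaw
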