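import Pool.Agent.Y995.TP.Fin

/-!
# Thick points of the percolation interface: dimension `7/4 - Θ(θ ^ 8)`

Critical bond percolation on `δ ℤ²` in a rectangle `D = (-A, B) × (0, H)`, with the counterclockwise
boundary arc from `a = t + i H` to `b = 0` wired and the other one dual-wired. The exploration path
is parametrised by its number of steps: `Rect.curve` is the piecewise linear curve on `[0, 1]` run
at constant speed, and `Rect.time` is the number of steps times `δ ^ (7/4)`; `Rect.law` is the law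
of (curve, time). Weak limits exist along a subsequence of every sequence of meshes.

Let `p = (f, T)` be a sample of a weak limit. A point `z` is `θ`-thick if for arbitrarily small `r`
the natural time which the curve spends in the disc of radius `r` around `z` is at least
`θ r ^ (7/4) (log (1/r)) ^ (1/8)` (at typical points this gauge is not reached: there it is
`r ^ (7/4) (log log (1/r)) ^ (1/8)`; the largest possible order is `r ^ (7/4) (log (1/r)) ^ (1/8)`).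
There are universal constants `c`, `C`, `θ₀` such that in every rectangle, for every weak limit,
almost surely, simultaneously for all `0 < θ ≤ θ₀` and all `s < t`, the times in `[s, t]` at which
the curve is at a `θ`-thick point have Hausdorff dimension between `1 - C θ ^ 8` and `1 - c θ ^ 8`,
and the `θ`-thick points of the arc `f [s, t]` have Hausdorff dimension between
`7/4 (1 - C θ ^ 8)` and `7/4 (1 - c θ ^ 8)`.

Definitions: `Pool.Agent.H984R4.NP.Model` (`Rect`, `pos`, `clamp`, `pl`, `X`, `Rect.dm`,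
`Rect.curve`, `Rect.time`, `Rect.law`), `Pool.Agent.H984R4.NP.Defs` (`Dm`, `Dm.edges`, `Dm.wir`,
`Dm.cfg`, `Dm.walk`, `Dm.len`) and `Pool.Agent.H984R3.Per.Defs` (states, `ae`, `mv`, `rt`, `nxt`,
`orb`).
-/

set_option autoImplicit false

namespace Pool.Agent.Results.MP_b3e76a_pr.ThickPoints

open H984N MeasureTheory Filter Topology

/-- `z` is a `θ`-thick point of `p = (f, T)`: for arbitrarily small `r > 0` the time
`T |{v : dist (f v) z ≤ r}|` spent near `z` is at least `θ r ^ (7/4) (log (1/r)) ^ (1/8)`. -/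
def Thick (θ : ℝ) (p : X) (z : ℂ) : Prop :=
  ∃ᶠ r : ℝ in 𝓝[>] 0, θ * (r ^ (7/4 : ℝ) * Real.log (1 / r) ^ (1/8 : ℝ)) ≤
    p.2 * (volume {v : unitInterval | dist (p.1 v) z ≤ r}).toReal

theorem result : ∃ c C θ₀ : ℝ, 0 < c ∧ 0 < C ∧ 0 < θ₀ ∧ C * θ₀ ^ 8 < 1 ∧ ∀ R : Rect,
    (∀ δ : ℕ → ℝ, (∀ i, 0 < δ i) → Tendsto δ atTop (𝓝 0) →
      ∃ φ : ℕ → ℕ, StrictMono φ ∧ ∃ μ : ProbabilityMeasure X,
        Tendsto (fun i => R.law (δ (φ i))) atTop (𝓝 μ)) ∧
    ∀ δ : ℕ → ℝ, (∀ i, 0 < δ i) → Tendsto δ atTop (𝓝 0) → ∀ μ : ProbabilityMeasure X,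
      Tendsto (fun i => R.law (δ i)) atTop (𝓝 μ) →
      ∀ᵐ p ∂(μ : Measure X), 0 < p.2 ∧ ∀ θ : ℝ, 0 < θ → θ ≤ θ₀ → ∀ s t : unitInterval, s < t →
        (ENNReal.ofReal (1 - C * θ ^ 8) ≤ dimH {u | u ∈ Set.Icc s t ∧ Thick θ p (p.1 u)} ∧
          dimH {u | u ∈ Set.Icc s t ∧ Thick θ p (p.1 u)} ≤ ENNReal.ofReal (1 - c * θ ^ 8)) ∧
        (ENNReal.ofReal (7 / 4 * (1 - C * θ ^ 8)) ≤
            dimH {z | z ∈ p.1 '' Set.Icc s t ∧ Thick θ p z} ∧
          dimH {z | z ∈ p.1 '' Set.Icc s t ∧ Thick θ p z} ≤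
            ENNReal.ofReal (7 / 4 * (1 - c * θ ^ 8))) := by
  obtain ⟨c, C, θ0, hc, hC, hθ0, hCθ, h⟩ := Pool.Agent.Y995.TP.thick_times
  refine ⟨c, C, θ0, hc, hC, hθ0, hCθ, fun R => ⟨(h R).1, fun δ hδ hlim μ hμ => ?_⟩⟩
  filter_upwards [(h R).2 δ hδ hlim μ hμ] with p hp
  refine ⟨hp.1, fun θ hθ hθ' s t hst => ?_⟩
  obtain ⟨h1, h2⟩ := hp.2.2 θ hθ hθ'
  have e1 : {u | u ∈ Set.Icc s t ∧ Thick θ p (p.1 u)} =
      Set.Icc s t ∩ Pool.Agent.Y995.TP.Th θ p := rfl
  have e2 : {z | z ∈ p.1 '' Set.Icc s t ∧ Thick θ p z} =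
      p.1 '' (Set.Icc s t ∩ Pool.Agent.Y995.TP.Th θ p) := by
    ext z
    constructor
    · rintro ⟨⟨u, hu, rfl⟩, hz⟩
      exact ⟨u, ⟨hu, hz⟩, rfl⟩
    · rintro ⟨u, ⟨hu, hz⟩, rfl⟩
      exact ⟨⟨u, hu, rfl⟩, hz⟩
  have h3 : dimH (Set.Icc s t ∩ Pool.Agent.Y995.TP.Th θ p) ≤ ENNReal.ofReal (1 - c * θ ^ 8) :=
    (dimH_mono Set.inter_subset_right).trans h1
  have h4 := h2 s t hst
  have e3 : (7 / 4 : ENNReal) = ENNReal.ofReal (7 / 4) := by
    rw [ENNReal.ofReal_div_of_pos (by norm_num)]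
    norm_num
  rw [e1, e2, hp.2.1, e3, ENNReal.ofReal_mul (by norm_num), ENNReal.ofReal_mul (by norm_num)]
  exact ⟨⟨h4, h3⟩, mul_le_mul_right h4 _, mul_le_mul_right h3 _⟩

end Pool.Agent.Results.MP_b3e76a_pr.ThickPoints
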