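import Pool.Agent.TH966.GB.WirLim
import Pool.Agent.H160R2.SA.Arm

/-!
# The cluster of the wired arc and fixed sets

The random cluster model with `q = 1` at its self-dual point (critical bond percolation) on `δ ℤ²`
in a rectangle `D = (-A, B) × (0, H)` with Dobrushin boundary conditions: the counterclockwise
boundary arc from `a = t + i H` to `b = 0` is wired, the other one is free. The open cluster of the
wired arc is a random compact set. For every weak limit `μ`, as `δ → 0`, of its law (for the
Hausdorff metric; they exist along a subsequence of every sequence of meshes):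

* for every fixed σ-compact subset `S` of `D` (for instance every curve, every closed and every open
  subset of `D`) the essential supremum of the dimension of the part of the cluster in `S` is exactly
  `dim S - 5/48` (truncated at `0`);
* for every compact `A` in `D` there are constants `c`, `C`, the same for all weak limits, such that
  the cluster meets every compact subset `S` of `A` with probability at least `c` times the capacity
  of `S` of order `5/48` (the supremum, over all probability measures `ν` on `S`, of the inverse of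
  the energy `∬ |x - y| ^ (-5/48) dν dν`), and every subset `S` of `A` with probability at most `C`
  times its Hausdorff content of order `5/48`.

Definitions: `Rect` (the domain), `Rect.D`, `pt`, `Rect.verts`, `Rect.edges` (the discrete domain),
`Rect.wired` (boundary condition), `Rect.clu` (vertices of the cluster) in
`Pool.Agent.H934R2.Expl.Model`; `cset`, `clus` (the cluster as a compact set: its vertices and its
edges), `clusLaw` (its law, all configurations of the edges being equally likely) in
`Pool.Agent.H389R2.CD.Hit`.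
-/

set_option autoImplicit false

namespace Pool.Agent.Results.MP_b3e76a_pr.WiredFixedSets

open MeasureTheory TopologicalSpace Filter Topology H934E Metric
open Pool.Agent.H389R2.CD Pool.Agent.TH966
open scoped ENNReal

theorem e5 : ENNReal.ofReal (5 / 48) = 5 / 48 := by
  rw [ENNReal.ofReal_div_of_pos (by norm_num)]
  norm_num

theorem result (R : Rect) :
    (∀ δ : ℕ → ℝ, (∀ i, 0 < δ i) → Tendsto δ atTop (𝓝 0) →
      ∃ φ : ℕ → ℕ, StrictMono φ ∧ ∃ μ : ProbabilityMeasure (NonemptyCompacts ℂ),
        Tendsto (fun i => clusLaw R (δ (φ i))) atTop (𝓝 μ)) ∧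
    (∀ δ : ℕ → ℝ, (∀ i, 0 < δ i) → Tendsto δ atTop (𝓝 0) →
      ∀ μ : ProbabilityMeasure (NonemptyCompacts ℂ),
        Tendsto (fun i => clusLaw R (δ i)) atTop (𝓝 μ) →
        ∀ S : Set ℂ, IsSigmaCompact S → S ⊆ R.D →
          essSup (fun K : NonemptyCompacts ℂ => dimH ((K : Set ℂ) ∩ S))
            (μ : Measure (NonemptyCompacts ℂ)) = dimH S - 5 / 48) ∧
    (∀ A : Set ℂ, IsCompact A → A ⊆ R.D → ∃ c C : ℝ, 0 < c ∧ 0 < C ∧
      ∀ δ : ℕ → ℝ, (∀ i, 0 < δ i) → Tendsto δ atTop (𝓝 0) →
      ∀ μ : ProbabilityMeasure (NonemptyCompacts ℂ),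
        Tendsto (fun i => clusLaw R (δ i)) atTop (𝓝 μ) →
        (∀ S : Set ℂ, IsCompact S → S ⊆ A → ∀ ν : Measure ℂ, IsProbabilityMeasure ν → ν Sᶜ = 0 →
          ENNReal.ofReal c / (∫⁻ x, ∫⁻ y, (edist x y) ^ (-(5 / 48) : ℝ) ∂ν ∂ν) ≤
            (μ : Measure (NonemptyCompacts ℂ)) {K | ((K : Set ℂ) ∩ S).Nonempty}) ∧
        (∀ S : Set ℂ, S ⊆ A → ∀ t : ℕ → Set ℂ, S ⊆ ⋃ n, t n →
          (μ : Measure (NonemptyCompacts ℂ)) {K | ((K : Set ℂ) ∩ S).Nonempty} ≤
            ENNReal.ofReal C * ∑' n, (ediam (t n)) ^ (5 / 48 : ℝ))) := by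
  have hAr : ArS := Pool.Agent.H160R2.SA.arSharp
  refine ⟨fun δ hδ hlim => clus_precompact R hδ hlim, ?_, ?_⟩
  · intro δ hδ hlim μ hμ S hS hSD
    rw [← e5]
    refine GB.ess_gen (μ := (μ : Measure (NonemptyCompacts ℂ)))
      (K := fun K : NonemptyCompacts ℂ => (K : Set ℂ)) (fun K => K.isCompact) GB.hit_meas
      (by norm_num) hS ?_
    intro A hA hAc
    obtain ⟨c, C, r0, hc, hC, hr0, h⟩ := GB.wired_bds hAr R hAc (hA.trans hSD)
    exact ⟨c, C, r0, hc, hC, hr0, h δ hδ hlim μ hμ⟩
  · intro A hA hAD
    obtain ⟨c, C, r0, hc, hC, hr0, h⟩ := GB.wired_bds hAr R hA hAD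
    refine ⟨c ^ 2 / (8 * (C * 3 ^ (5 / 48 : ℝ))), max C (r0 ^ (-(5 / 48 : ℝ))), by positivity,
      lt_max_of_lt_left hC, ?_⟩
    intro δ hδ hlim μ hμ
    have hb := h δ hδ hlim μ hμ
    refine ⟨?_, ?_⟩
    · intro S hS hSA ν hν hν0
      exact GB.cap_gen (μ := (μ : Measure (NonemptyCompacts ℂ)))
        (K := fun K : NonemptyCompacts ℂ => (K : Set ℂ)) (fun K => K.isCompact) GB.hit_meas
        (by norm_num) hc hC hr0 hb hS hSA hν0
    · intro S hSA t ht
      exact GB.content_gen (μ := (μ : Measure (NonemptyCompacts ℂ)))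
        (K := fun K : NonemptyCompacts ℂ => (K : Set ℂ)) (by norm_num) hC hr0 hb hSA t ht

end Pool.Agent.Results.MP_b3e76a_pr.WiredFixedSets
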